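import Pool.Agent.H21MC.Local

set_option autoImplicit false
open Complex Filter Topology Set Metric MeasureTheory

namespace Pool.Agent.H21MC

/-- differentiation under the integral sign on the half line `s < 0` -/
theorem hasDerivAt_param {F F' : ℝ → ℝ → ℝ}
    (hF : ∀ s < 0, Continuous (F s))
    (hc' : ContinuousOn (fun p : ℝ × ℝ => F' p.1 p.2) (Iio 0 ×ˢ univ))
    (hd : ∀ s < 0, ∀ θ, HasDerivAt (fun s => F s θ) (F' s θ) s) {s0 : ℝ} (hs0 : s0 < 0) :
    HasDerivAt (fun s => ∫ θ in (0:ℝ)..(2 * Real.pi), F s θ)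
      (∫ θ in (0:ℝ)..(2 * Real.pi), F' s0 θ) s0 := by
  set δ : ℝ := -s0 / 2 with hδ
  have hδ0 : 0 < δ := by rw [hδ]; linarith
  have hsub : closedBall s0 δ ⊆ Iio 0 := by
    intro s hs
    rw [mem_closedBall, Real.dist_eq] at hs
    have := (abs_le.mp hs).2
    show s < 0
    linarith
  have hK : IsCompact (closedBall s0 δ ×ˢ Icc (0:ℝ) (2 * Real.pi)) :=
    (isCompact_closedBall _ _).prod isCompact_Icc
  have hcK : ContinuousOn (fun p : ℝ × ℝ => F' p.1 p.2) (closedBall s0 δ ×ˢ Icc (0:ℝ) (2 * Real.pi)) :=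
    hc'.mono (prod_mono hsub (subset_univ _))
  obtain ⟨M, hM⟩ := hK.exists_bound_of_continuousOn hcK
  have hFs' : ∀ s < 0, Continuous (F' s) := by
    intro s hs
    rw [← continuousOn_univ]
    exact hc'.comp (continuous_const.prodMk continuous_id).continuousOn (fun θ _ => ⟨hs, mem_univ _⟩)
  have key := intervalIntegral.hasDerivAt_integral_of_dominated_loc_of_deriv_le
    (μ := volume) (F := F) (F' := F') (x₀ := s0) (a := 0) (b := 2 * Real.pi)
    (s := closedBall s0 δ) (bound := fun _ => M) (closedBall_mem_nhds _ hδ0)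
    (by
      filter_upwards [Iio_mem_nhds hs0] with s hs
      exact (hF s hs).aestronglyMeasurable)
    ((hF s0 hs0).intervalIntegrable _ _) ((hFs' s0 hs0).aestronglyMeasurable)
    (by
      refine Eventually.of_forall fun θ hθ s hs => hM (s, θ) ⟨hs, ?_⟩
      rw [uIoc_of_le Real.two_pi_pos.le] at hθ
      exact ⟨hθ.1.le, hθ.2⟩)
    intervalIntegrable_const
    (Eventually.of_forall fun θ _ s hs => hd s (hsub hs) θ)
  exact key.2

/-- the point `s + i θ` -/
noncomputable def pz (s θ : ℝ) : ℂ := (s : ℂ) + (θ : ℂ) * I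

theorem pz_cont : Continuous (fun p : ℝ × ℝ => pz p.1 p.2) := by unfold pz; fun_prop

theorem pz_re (s θ : ℝ) : (pz s θ).re = s := by unfold pz; simp

theorem pz_s (s θ : ℝ) : HasDerivAt (fun s => pz s θ) 1 s := by
  have h : HasDerivAt (fun s : ℝ => (s : ℂ)) 1 s := Complex.ofRealCLM.hasDerivAt
  exact h.add_const _

theorem pz_t (s θ : ℝ) : HasDerivAt (fun θ => pz s θ) I θ := by
  have h : HasDerivAt (fun s : ℝ => (s : ℂ)) 1 θ := Complex.ofRealCLM.hasDerivAt
  have h2 := (h.mul_const I).const_add (s : ℂ)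
  rw [one_mul] at h2
  exact h2

section K

/-- left half plane -/
def Lh : Set ℂ := {Z : ℂ | Z.re < 0}

theorem isOpen_Lh : IsOpen Lh := isOpen_lt Complex.continuous_re continuous_const

variable {k : ℂ → ℂ} (hk : DifferentiableOn ℂ k Lh)
include hk

theorem k_at {Z : ℂ} (hZ : Z.re < 0) : HasDerivAt k (deriv k Z) Z :=
  ((hk Z hZ).differentiableAt (isOpen_Lh.mem_nhds hZ)).hasDerivAt

theorem k1 : DifferentiableOn ℂ (deriv k) Lh := hk.deriv isOpen_Lh

theorem comp_cont : ContinuousOn (fun p : ℝ × ℝ => k (pz p.1 p.2)) (Iio 0 ×ˢ univ) := by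
  refine hk.continuousOn.comp pz_cont.continuousOn ?_
  intro p hp
  show (pz p.1 p.2).re < 0
  rw [pz_re]
  exact hp.1

theorem comp_cont1 {s : ℝ} (hs : s < 0) : Continuous (fun θ : ℝ => k (pz s θ)) := by
  rw [← continuousOn_univ]
  exact (comp_cont hk).comp (continuous_const.prodMk continuous_id).continuousOn
    (fun θ _ => ⟨hs, mem_univ _⟩)

theorem dks {s θ : ℝ} (hs : s < 0) : HasDerivAt (fun s => k (pz s θ)) (deriv k (pz s θ)) s := by
  have h1 := k_at hk (Z := pz s θ) (by rw [pz_re]; exact hs)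
  have h2 := h1.scomp s (pz_s s θ)
  rw [one_smul] at h2
  exact h2

theorem dkt {s θ : ℝ} (hs : s < 0) :
    HasDerivAt (fun θ => k (pz s θ)) (I * deriv k (pz s θ)) θ := by
  have h1 := k_at hk (Z := pz s θ) (by rw [pz_re]; exact hs)
  have h2 := h1.scomp θ (pz_t s θ)
  rw [smul_eq_mul] at h2
  exact h2

theorem dks_re {s θ : ℝ} (hs : s < 0) :
    HasDerivAt (fun s => (k (pz s θ)).re) (deriv k (pz s θ)).re s := by
  have h := (dks hk (θ := θ) hs)
  exact (Complex.reCLM.hasFDerivAt.comp_hasDerivAt s h)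

theorem dkt_re {s θ : ℝ} (hs : s < 0) :
    HasDerivAt (fun θ => (k (pz s θ)).re) (-(deriv k (pz s θ)).im) θ := by
  have h := (dkt hk (θ := θ) hs)
  have h2 := (Complex.reCLM.hasFDerivAt.comp_hasDerivAt θ h)
  refine h2.congr_deriv ?_
  simp

theorem dkt_im {s θ : ℝ} (hs : s < 0) :
    HasDerivAt (fun θ => (k (pz s θ)).im) ((deriv k (pz s θ)).re) θ := by
  have h := (dkt hk (θ := θ) hs)
  have h2 := (Complex.imCLM.hasFDerivAt.comp_hasDerivAt θ h)
  refine h2.congr_deriv ?_
  simp

/-- first derivative of the mean -/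
theorem I1 {s : ℝ} (hs : s < 0) :
    HasDerivAt (fun s => ∫ θ in (0:ℝ)..(2 * Real.pi), Real.exp (k (pz s θ)).re)
      (∫ θ in (0:ℝ)..(2 * Real.pi), Real.exp (k (pz s θ)).re * (deriv k (pz s θ)).re) s := by
  refine hasDerivAt_param (F := fun s θ => Real.exp (k (pz s θ)).re)
    (F' := fun s θ => Real.exp (k (pz s θ)).re * (deriv k (pz s θ)).re) ?_ ?_ ?_ hs
  · intro s hs
    exact Real.continuous_exp.comp (Complex.continuous_re.comp (comp_cont1 hk hs))
  · exact (Real.continuous_exp.comp_continuousOn (Complex.continuous_re.comp_continuousOn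
      (comp_cont hk))).mul (Complex.continuous_re.comp_continuousOn (comp_cont (k1 hk)))
  · intro s hs θ
    exact (dks_re hk hs).exp

theorem I2a {s : ℝ} (hs : s < 0) :
    HasDerivAt (fun s => ∫ θ in (0:ℝ)..(2 * Real.pi),
        Real.exp (k (pz s θ)).re * (deriv k (pz s θ)).re)
      (∫ θ in (0:ℝ)..(2 * Real.pi), (Real.exp (k (pz s θ)).re * (deriv k (pz s θ)).re *
        (deriv k (pz s θ)).re + Real.exp (k (pz s θ)).re * (deriv (deriv k) (pz s θ)).re)) s := by
  refine hasDerivAt_param (F := fun s θ => Real.exp (k (pz s θ)).re * (deriv k (pz s θ)).re)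
    (F' := fun s θ => (Real.exp (k (pz s θ)).re * (deriv k (pz s θ)).re *
        (deriv k (pz s θ)).re + Real.exp (k (pz s θ)).re * (deriv (deriv k) (pz s θ)).re))
    ?_ ?_ ?_ hs
  · intro s hs
    exact (Real.continuous_exp.comp (Complex.continuous_re.comp (comp_cont1 hk hs))).mul
      (Complex.continuous_re.comp (comp_cont1 (k1 hk) hs))
  · have c0 := Real.continuous_exp.comp_continuousOn (Complex.continuous_re.comp_continuousOn
      (comp_cont hk))
    have c1 := Complex.continuous_re.comp_continuousOn (comp_cont (k1 hk))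
    have c2 := Complex.continuous_re.comp_continuousOn (comp_cont (k1 (k1 hk)))
    exact ((c0.mul c1).mul c1).add (c0.mul c2)
  · intro s hs θ
    exact ((dks_re hk hs).exp).mul (dks_re (k1 hk) hs)

/-- the mean of the tangential derivative vanishes -/
theorem tan0 {s : ℝ} (hs : s < 0) (hper : ∀ θ, k (pz s (θ + 2 * Real.pi)) = k (pz s θ)) :
    ∫ θ in (0:ℝ)..(2 * Real.pi), Real.exp (k (pz s θ)).re * (deriv k (pz s θ)).im = 0 := by
  have h1 : ∀ θ ∈ uIcc (0:ℝ) (2 * Real.pi), HasDerivAt (fun θ => -Real.exp (k (pz s θ)).re)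
      (Real.exp (k (pz s θ)).re * (deriv k (pz s θ)).im) θ := by
    intro θ _
    have h := ((dkt_re hk (θ := θ) hs).exp).neg
    refine h.congr_deriv ?_
    ring
  have hc : Continuous (fun θ => Real.exp (k (pz s θ)).re * (deriv k (pz s θ)).im) :=
    (Real.continuous_exp.comp (Complex.continuous_re.comp (comp_cont1 hk hs))).mul
      (Complex.continuous_im.comp (comp_cont1 (k1 hk) hs))
  rw [intervalIntegral.integral_eq_sub_of_hasDerivAt h1 (hc.intervalIntegrable _ _)]
  have := hper 0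
  rw [zero_add] at this
  rw [this]
  ring

/-- the second tangential identity -/
theorem tan1 {s : ℝ} (hs : s < 0) (hper : ∀ θ, k (pz s (θ + 2 * Real.pi)) = k (pz s θ))
    (hper' : ∀ θ, deriv k (pz s (θ + 2 * Real.pi)) = deriv k (pz s θ)) :
    ∫ θ in (0:ℝ)..(2 * Real.pi), (Real.exp (k (pz s θ)).re * (deriv (deriv k) (pz s θ)).re -
      Real.exp (k (pz s θ)).re * (deriv k (pz s θ)).im * (deriv k (pz s θ)).im) = 0 := by
  have h1 : ∀ θ ∈ uIcc (0:ℝ) (2 * Real.pi),
      HasDerivAt (fun θ => Real.exp (k (pz s θ)).re * (deriv k (pz s θ)).im)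
      (Real.exp (k (pz s θ)).re * (deriv (deriv k) (pz s θ)).re -
      Real.exp (k (pz s θ)).re * (deriv k (pz s θ)).im * (deriv k (pz s θ)).im) θ := by
    intro θ _
    have h := ((dkt_re hk (θ := θ) hs).exp).mul (dkt_im (k1 hk) (θ := θ) hs)
    refine h.congr_deriv ?_
    ring
  have c0 := Real.continuous_exp.comp (Complex.continuous_re.comp (comp_cont1 hk hs))
  have c1 := Complex.continuous_im.comp (comp_cont1 (k1 hk) hs)
  have c2 := Complex.continuous_re.comp (comp_cont1 (k1 (k1 hk)) hs)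
  have hc : Continuous (fun θ => Real.exp (k (pz s θ)).re * (deriv (deriv k) (pz s θ)).re -
      Real.exp (k (pz s θ)).re * (deriv k (pz s θ)).im * (deriv k (pz s θ)).im) :=
    (c0.mul c2).sub ((c0.mul c1).mul c1)
  rw [intervalIntegral.integral_eq_sub_of_hasDerivAt h1 (hc.intervalIntegrable _ _)]
  have e1 := hper 0
  have e2 := hper' 0
  rw [zero_add] at e1 e2
  rw [e1, e2]
  ring

/-- second derivative of the mean -/
theorem I2 {s : ℝ} (hs : s < 0) (hper : ∀ θ, k (pz s (θ + 2 * Real.pi)) = k (pz s θ))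
    (hper' : ∀ θ, deriv k (pz s (θ + 2 * Real.pi)) = deriv k (pz s θ)) :
    HasDerivAt (fun s => ∫ θ in (0:ℝ)..(2 * Real.pi),
        Real.exp (k (pz s θ)).re * (deriv k (pz s θ)).re)
      (∫ θ in (0:ℝ)..(2 * Real.pi), Real.exp (k (pz s θ)).re * ‖deriv k (pz s θ)‖ ^ 2) s := by
  refine (I2a hk hs).congr_deriv ?_
  have c0 := Real.continuous_exp.comp (Complex.continuous_re.comp (comp_cont1 hk hs))
  have c1 := Complex.continuous_im.comp (comp_cont1 (k1 hk) hs)
  have c1' := Complex.continuous_re.comp (comp_cont1 (k1 hk) hs)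
  have c2 := Complex.continuous_re.comp (comp_cont1 (k1 (k1 hk)) hs)
  have hc : Continuous (fun θ => Real.exp (k (pz s θ)).re * (deriv (deriv k) (pz s θ)).re -
      Real.exp (k (pz s θ)).re * (deriv k (pz s θ)).im * (deriv k (pz s θ)).im) :=
    (c0.mul c2).sub ((c0.mul c1).mul c1)
  have hc2 : Continuous (fun θ => (Real.exp (k (pz s θ)).re * (deriv k (pz s θ)).re *
        (deriv k (pz s θ)).re + Real.exp (k (pz s θ)).re * (deriv (deriv k) (pz s θ)).re)) :=
    ((c0.mul c1').mul c1').add (c0.mul c2)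
  have e := intervalIntegral.integral_sub (μ := volume)
    (hc2.intervalIntegrable (0:ℝ) (2 * Real.pi)) (hc.intervalIntegrable (0:ℝ) (2 * Real.pi))
  rw [tan1 hk hs hper hper', sub_zero] at e
  rw [← e]
  apply intervalIntegral.integral_congr
  intro θ _
  simp only
  rw [Complex.sq_norm, normSq_apply]
  ring

end K

end Pool.Agent.H21MC
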