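import Mathlib

set_option autoImplicit false
open Filter Topology Set Metric

namespace Pool.Agent.H21MC

theorem compare {a b : ℝ} {D D1 D2 E q p : ℝ → ℝ}
    (hD : ∀ s ∈ Ico a b, HasDerivAt D (D1 s) s) (hD1 : ∀ s ∈ Ico a b, HasDerivAt D1 (D2 s) s)
    (hE : ∀ s ∈ Ico a b, HasDerivAt E (q s) s) (hp : ∀ s ∈ Ico a b, 0 ≤ p s)
    (h : ∀ s ∈ Ico a b, p s * D s + q s * D1 s ≤ D2 s) (h0 : 0 < D a) (h1 : 0 < D1 a) :
    ∀ s ∈ Ico a b, 0 < D s := by
  intro t ht
  have hsub : Icc a t ⊆ Ico a b := fun s hs => ⟨hs.1, lt_of_le_of_lt hs.2 ht.2⟩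
  have hcD1 : ContinuousOn D1 (Icc a t) := fun s hs =>
    (hD1 s (hsub hs)).continuousAt.continuousWithinAt
  have hpos : ∀ s ∈ Icc a t, 0 < D1 s := by
    by_contra hcon
    push Not at hcon
    obtain ⟨s2, hs2, hs2'⟩ := hcon
    set S : Set ℝ := Icc a t ∩ D1 ⁻¹' (Iic 0) with hS
    have hSc : IsCompact S := by
      have h1 : IsClosed S := hcD1.preimage_isClosed_of_isClosed isClosed_Icc isClosed_Iic
      exact isCompact_Icc.of_isClosed_subset h1 inter_subset_left
    obtain ⟨s1, hs1, hmin⟩ := hSc.exists_isLeast ⟨s2, hs2, hs2'⟩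
    have hs1I : s1 ∈ Icc a t := hs1.1
    have hs1n : D1 s1 ≤ 0 := hs1.2
    have hsub1 : Icc a s1 ⊆ Icc a t := Icc_subset_Icc_right hs1I.2
    have hlt : ∀ s ∈ Ico a s1, 0 < D1 s := by
      intro s hs
      by_contra hc
      push Not at hc
      have := hmin ⟨hsub1 ⟨hs.1, hs.2.le⟩, hc⟩
      linarith [hs.2]
    have hmono : MonotoneOn D (Icc a s1) := by
      apply monotoneOn_of_deriv_nonneg (convex_Icc _ _)
      · exact fun s hs => (hD s (hsub (hsub1 hs))).continuousAt.continuousWithinAt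
      · intro s hs
        rw [interior_Icc] at hs
        exact (hD s (hsub (hsub1 ⟨hs.1.le, hs.2.le⟩))).differentiableAt.differentiableWithinAt
      · intro s hs
        rw [interior_Icc] at hs
        rw [(hD s (hsub (hsub1 ⟨hs.1.le, hs.2.le⟩))).deriv]
        exact (hlt s ⟨hs.1.le, hs.2⟩).le
    have hDpos : ∀ s ∈ Icc a s1, 0 < D s := by
      intro s hs
      have := hmono (left_mem_Icc.mpr hs1I.1) hs hs.1
      linarith
    have hφ : ∀ s ∈ Icc a s1, HasDerivAt (fun s => D1 s * Real.exp (-E s))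
        (D2 s * Real.exp (-E s) + D1 s * (Real.exp (-E s) * -q s)) s := by
      intro s hs
      exact (hD1 s (hsub (hsub1 hs))).mul ((hE s (hsub (hsub1 hs))).neg.exp)
    have hmono2 : MonotoneOn (fun s => D1 s * Real.exp (-E s)) (Icc a s1) := by
      apply monotoneOn_of_deriv_nonneg (convex_Icc _ _)
      · exact fun s hs => (hφ s hs).continuousAt.continuousWithinAt
      · intro s hs
        rw [interior_Icc] at hs
        exact (hφ s ⟨hs.1.le, hs.2.le⟩).differentiableAt.differentiableWithinAt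
      · intro s hs
        rw [interior_Icc] at hs
        have hs' : s ∈ Icc a s1 := ⟨hs.1.le, hs.2.le⟩
        rw [(hφ s hs').deriv]
        have e1 := h s (hsub (hsub1 hs'))
        have e2 : 0 ≤ p s * D s := mul_nonneg (hp s (hsub (hsub1 hs'))) (hDpos s hs').le
        have e3 : D2 s * Real.exp (-E s) + D1 s * (Real.exp (-E s) * -q s) =
            (D2 s - q s * D1 s) * Real.exp (-E s) := by ring
        rw [e3]
        apply mul_nonneg _ (Real.exp_pos _).le
        linarith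
    have h3 := hmono2 (left_mem_Icc.mpr hs1I.1) (right_mem_Icc.mpr hs1I.1) hs1I.1
    simp only at h3
    have h4 : 0 < D1 a * Real.exp (-E a) := mul_pos h1 (Real.exp_pos _)
    have h5 : D1 s1 * Real.exp (-E s1) ≤ 0 :=
      mul_nonpos_of_nonpos_of_nonneg hs1n (Real.exp_pos _).le
    linarith
  have hmono : MonotoneOn D (Icc a t) := by
    apply monotoneOn_of_deriv_nonneg (convex_Icc _ _)
    · exact fun s hs => (hD s (hsub hs)).continuousAt.continuousWithinAt
    · intro s hs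
      rw [interior_Icc] at hs
      exact (hD s (hsub ⟨hs.1.le, hs.2.le⟩)).differentiableAt.differentiableWithinAt
    · intro s hs
      rw [interior_Icc] at hs
      rw [(hD s (hsub ⟨hs.1.le, hs.2.le⟩)).deriv]
      exact (hpos s ⟨hs.1.le, hs.2.le⟩).le
  have := hmono (left_mem_Icc.mpr ht.1) (right_mem_Icc.mpr ht.1) ht.1
  linarith

/-- the comparison function -/
noncomputable def JJ (M β s : ℝ) : ℝ := M * Real.exp (-β * Real.log (1 - Real.exp s))

theorem one_sub_exp_pos {s : ℝ} (hs : s < 0) : 0 < 1 - Real.exp s := by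
  have h := Real.exp_lt_exp.mpr hs
  rw [Real.exp_zero] at h
  linarith

theorem log_der {s : ℝ} (hs : s < 0) :
    HasDerivAt (fun s => Real.log (1 - Real.exp s)) (-(Real.exp s / (1 - Real.exp s))) s := by
  have h1 : HasDerivAt (fun s => 1 - Real.exp s) (-Real.exp s) s := (Real.hasDerivAt_exp s).const_sub 1
  have h2 := h1.log (one_sub_exp_pos hs).ne'
  refine h2.congr_deriv ?_
  ring

theorem JJ_der (M β : ℝ) {s : ℝ} (hs : s < 0) :
    HasDerivAt (JJ M β) (JJ M β s * (β * (Real.exp s / (1 - Real.exp s)))) s := by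
  have h1 := (((log_der hs).const_mul (-β)).exp).const_mul M
  refine h1.congr_deriv ?_
  unfold JJ
  ring

theorem quo_der {s : ℝ} (hs : s < 0) :
    HasDerivAt (fun s => Real.exp s / (1 - Real.exp s)) (Real.exp s / (1 - Real.exp s) ^ 2) s := by
  have h1 : HasDerivAt (fun s => 1 - Real.exp s) (-Real.exp s) s := (Real.hasDerivAt_exp s).const_sub 1
  have h2 := (Real.hasDerivAt_exp s).div h1 (one_sub_exp_pos hs).ne'
  refine h2.congr_deriv ?_
  congr 1
  ring

theorem JJ_der2 (M β : ℝ) {s : ℝ} (hs : s < 0) :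
    HasDerivAt (fun s => JJ M β s * (β * (Real.exp s / (1 - Real.exp s))))
      (JJ M β s * ((β * (Real.exp s / (1 - Real.exp s))) ^ 2 +
        β * (Real.exp s / (1 - Real.exp s) ^ 2))) s := by
  have h1 := (JJ_der M β hs).mul ((quo_der hs).const_mul β)
  refine h1.congr_deriv ?_
  ring

theorem EE_der (x : ℝ) {s : ℝ} (hs : s < 0) :
    HasDerivAt (fun s => 2 * x * (s - Real.log (1 - Real.exp s))) (2 * x / (1 - Real.exp s)) s := by
  have h1 := (((hasDerivAt_id s).sub (log_der hs))).const_mul (2 * x)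
  refine h1.congr_deriv ?_
  have := (one_sub_exp_pos hs).ne'
  field_simp
  ring

/-- the supersolution inequality -/
theorem super {M κ τ x s : ℝ} (hM : 0 ≤ M) (hκ : 0 < κ) (hx : x ≤ τ) (hs : s < 0)
    (hr : 4 ≤ κ * Real.exp s) :
    3 * τ ^ 2 / (1 - Real.exp s) ^ 2 * JJ M (κ * τ ^ 2) s +
      2 * x / (1 - Real.exp s) * (JJ M (κ * τ ^ 2) s * (κ * τ ^ 2 * (Real.exp s / (1 - Real.exp s))))
    ≤ JJ M (κ * τ ^ 2) s * ((κ * τ ^ 2 * (Real.exp s / (1 - Real.exp s))) ^ 2 +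
        κ * τ ^ 2 * (Real.exp s / (1 - Real.exp s) ^ 2)) := by
  have hJ : 0 ≤ JJ M (κ * τ ^ 2) s := mul_nonneg hM (Real.exp_pos _).le
  have hw := one_sub_exp_pos hs
  have hr0 := Real.exp_pos s
  set r := Real.exp s with hrdef
  set w := 1 - r with hw'
  have e1 : JJ M (κ * τ ^ 2) s * ((κ * τ ^ 2 * (r / w)) ^ 2 + κ * τ ^ 2 * (r / w ^ 2)) -
      (3 * τ ^ 2 / w ^ 2 * JJ M (κ * τ ^ 2) s +
        2 * x / w * (JJ M (κ * τ ^ 2) s * (κ * τ ^ 2 * (r / w)))) =
      JJ M (κ * τ ^ 2) s * τ ^ 2 / w ^ 2 * ((κ * τ * r) ^ 2 + κ * r - 3 - 2 * x * (κ * r)) := by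
    field_simp
    ring
  have e2 : 0 ≤ (κ * τ * r) ^ 2 + κ * r - 3 - 2 * x * (κ * r) := by
    have h1 : x * (κ * r) ≤ τ * (κ * r) := mul_le_mul_of_nonneg_right hx (by positivity)
    nlinarith [sq_nonneg (κ * τ * r - 1)]
  have e3 : 0 ≤ JJ M (κ * τ ^ 2) s * τ ^ 2 / w ^ 2 * ((κ * τ * r) ^ 2 + κ * r - 3 - 2 * x * (κ * r)) :=
    mul_nonneg (div_nonneg (mul_nonneg hJ (sq_nonneg _)) (sq_nonneg _)) e2
  linarith

end Pool.Agent.H21MC
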