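import Pool.Agent.H21MC.Mean

set_option autoImplicit false
open Complex Filter Topology Set Metric MeasureTheory

namespace Pool.Agent.H21MC

theorem mean0 {g : ℂ → ℂ} (hg : Cl g) (t : ℂ) {s : ℝ} (hs : s < 0) :
    ∫ θ in (0:ℝ)..(2 * Real.pi), (deriv (kk g t) (pz s θ)).re = 0 := by
  have h1 : ∀ θ ∈ uIcc (0:ℝ) (2 * Real.pi), HasDerivAt (fun θ => (kk g t (pz s θ)).im)
      ((deriv (kk g t) (pz s θ)).re) θ := fun θ _ => dkt_im (kk_diff hg t) hs
  rw [intervalIntegral.integral_eq_sub_of_hasDerivAt h1 ((cR hg t hs).intervalIntegrable _ _)]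
  have e1 := kk_per g t s 0
  rw [zero_add] at e1
  rw [e1]
  ring

theorem kk_bd {g : ℂ → ℂ} (hg : Cl g) (t : ℂ) {s : ℝ} (hs : s < 0) (θ : ℝ) :
    |(kk g t (pz s θ)).re| ≤ 3 / (1 - Real.exp s) * ‖t‖ := by
  refine (Complex.abs_re_le_norm _).trans ?_
  unfold kk
  rw [norm_mul, mul_comm]
  apply mul_le_mul_of_nonneg_right _ (norm_nonneg _)
  have hr1 : Real.exp s < 1 := by
    have := one_sub_exp_pos hs
    linarith
  exact bd2 hg (Real.exp_pos s) hr1 (exp_norm s θ).le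

theorem kk1_bd {g : ℂ → ℂ} (hg : Cl g) (t : ℂ) {s : ℝ} (hs : s < 0) (θ : ℝ) :
    |(deriv (kk g t) (pz s θ)).re| ≤ 3 / (1 - Real.exp s) * ‖t‖ := by
  refine (Complex.abs_re_le_norm _).trans ?_
  rw [kk_deriv hg t hs, norm_mul, mul_comm]
  apply mul_le_mul_of_nonneg_right _ (norm_nonneg _)
  have hr1 : Real.exp s < 1 := by
    have := one_sub_exp_pos hs
    linarith
  have h := bd1 hg (u := Complex.exp (pz s θ)) (by rw [exp_norm]; exact hr1)
  rw [exp_norm] at h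
  exact h

theorem MI_bd {g : ℂ → ℂ} (hg : Cl g) (t : ℂ) {s : ℝ} (hs : s < 0) :
    MI g t s ≤ 2 * Real.pi * Real.exp (3 / (1 - Real.exp s) * ‖t‖) := by
  have h := intervalIntegral.norm_integral_le_of_norm_le_const (a := 0) (b := 2 * Real.pi)
    (f := fun θ => Real.exp (kk g t (pz s θ)).re)
    (C := Real.exp (3 / (1 - Real.exp s) * ‖t‖)) (by
      intro θ _
      rw [Real.norm_of_nonneg (Real.exp_pos _).le]
      exact Real.exp_le_exp.mpr ((le_abs_self _).trans (kk_bd hg t hs θ)))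
  rw [sub_zero, abs_of_pos Real.two_pi_pos] at h
  have h2 := (le_abs_self (MI g t s)).trans (le_of_eq (Real.norm_eq_abs (MI g t s)).symm)
  refine h2.trans (h.trans (le_of_eq (by ring)))

theorem MI1_bd {g : ℂ → ℂ} (hg : Cl g) (t : ℂ) {s : ℝ} (hs : s < 0) :
    MI1 g t s ≤ 2 * Real.pi * ((3 / (1 - Real.exp s) * ‖t‖) ^ 2 *
      Real.exp (3 / (1 - Real.exp s) * ‖t‖)) := by
  set A : ℝ := 3 / (1 - Real.exp s) * ‖t‖ with hA
  have hA0 : 0 ≤ A := by
    have := one_sub_exp_pos hs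
    positivity
  have e : MI1 g t s = ∫ θ in (0:ℝ)..(2 * Real.pi),
      (Real.exp (kk g t (pz s θ)).re - 1) * (deriv (kk g t) (pz s θ)).re := by
    have h1 := intervalIntegral.integral_sub (μ := volume)
      (((cE hg t hs).mul (cR hg t hs)).intervalIntegrable (0:ℝ) (2 * Real.pi))
      ((cR hg t hs).intervalIntegrable (0:ℝ) (2 * Real.pi))
    rw [mean0 hg t hs, sub_zero] at h1
    refine h1.symm.trans (intervalIntegral.integral_congr ?_)
    intro θ _
    simp only [Pi.mul_apply]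
    ring
  rw [e]
  have h := intervalIntegral.norm_integral_le_of_norm_le_const (a := 0) (b := 2 * Real.pi)
    (f := fun θ => (Real.exp (kk g t (pz s θ)).re - 1) * (deriv (kk g t) (pz s θ)).re)
    (C := A ^ 2 * Real.exp A) (by
      intro θ _
      rw [norm_mul, Real.norm_eq_abs, Real.norm_eq_abs]
      have h1 := abs_exp_sub_one_le (kk g t (pz s θ)).re
      have h2 := kk_bd hg t hs θ
      have h3 := kk1_bd hg t hs θ
      have h4 : |Real.exp (kk g t (pz s θ)).re - 1| ≤ A * Real.exp A :=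
        h1.trans (mul_le_mul h2 (Real.exp_le_exp.mpr h2) (Real.exp_pos _).le hA0)
      calc |Real.exp (kk g t (pz s θ)).re - 1| * |(deriv (kk g t) (pz s θ)).re|
          ≤ (A * Real.exp A) * A := mul_le_mul h4 h3 (abs_nonneg _) (by positivity)
        _ = A ^ 2 * Real.exp A := by ring)
  rw [sub_zero, abs_of_pos Real.two_pi_pos, Real.norm_eq_abs] at h
  exact (le_abs_self _).trans (h.trans (le_of_eq (by ring)))

/-- the exponential moment bound -/
theorem mean_le {g : ℂ → ℂ} (hg : Cl g) {κ : ℝ} (hκ : 4 < κ) (t : ℂ) {s : ℝ} (hs : s < 0)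
    (hr : 4 ≤ κ * Real.exp s) :
    MI g t s ≤ JJ (2 * Real.pi * (1 + 3 / (1 - 4 / κ)) * Real.exp (3 / (1 - 4 / κ) * ‖t‖))
      (κ * ‖t‖ ^ 2) s := by
  have hκ0 : 0 < κ := by linarith
  have h4κ : 4 / κ < 1 := by rw [div_lt_one hκ0]; exact hκ
  have h4κ0 : 0 < 4 / κ := by positivity
  set C0 : ℝ := 3 / (1 - 4 / κ) with hC0
  have hw0 : 0 < 1 - 4 / κ := by linarith
  have hC0p : 0 < C0 := by positivity
  set M : ℝ := 2 * Real.pi * (1 + C0) * Real.exp (C0 * ‖t‖) with hM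
  have hMp : 0 < M := by positivity
  have hlog : ∀ s < 0, 0 ≤ -Real.log (1 - Real.exp s) := by
    intro s hs
    have h1 := one_sub_exp_pos hs
    have h2 := Real.log_nonpos h1.le (by linarith [Real.exp_pos s])
    linarith
  have hJM : ∀ s < 0, M ≤ JJ M (κ * ‖t‖ ^ 2) s := by
    intro s hs
    unfold JJ
    have h1 : 0 ≤ -(κ * ‖t‖ ^ 2) * Real.log (1 - Real.exp s) := by
      have := hlog s hs
      have h2 : 0 ≤ (κ * ‖t‖ ^ 2) * -Real.log (1 - Real.exp s) := mul_nonneg (by positivity) this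
      linarith
    have h2 : (1 : ℝ) ≤ Real.exp (-(κ * ‖t‖ ^ 2) * Real.log (1 - Real.exp s)) :=
      Real.one_le_exp h1
    nlinarith
  by_cases ht : t = 0
  · have h1 : MI g t s = 2 * Real.pi := by
      unfold MI kk
      rw [ht]
      simp
    rw [h1]
    refine le_trans ?_ (hJM s hs)
    rw [hM, ht, norm_zero, mul_zero, Real.exp_zero]
    nlinarith [Real.pi_pos]
  have hτ : 0 < ‖t‖ := norm_pos_iff.mpr ht
  set s0 : ℝ := Real.log (4 / κ) with hs0
  have hes0 : Real.exp s0 = 4 / κ := by rw [hs0, Real.exp_log h4κ0]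
  have hs0n : s0 < 0 := Real.log_neg h4κ0 h4κ
  have hs0s : s0 ≤ s := by
    rw [← Real.exp_le_exp, hes0, div_le_iff₀ hκ0]
    linarith
  have hge : ∀ y ∈ Ico s0 0, 4 ≤ κ * Real.exp y := by
    intro y hy
    have h1 := Real.exp_le_exp.mpr hy.1
    rw [hes0, div_le_iff₀ hκ0] at h1
    linarith
  have hres := compare (a := s0) (b := 0)
    (D := fun s => JJ M (κ * ‖t‖ ^ 2) s - MI g t s)
    (D1 := fun s => JJ M (κ * ‖t‖ ^ 2) s * ((κ * ‖t‖ ^ 2) * (Real.exp s / (1 - Real.exp s))) -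
      MI1 g t s)
    (D2 := fun s => JJ M (κ * ‖t‖ ^ 2) s * (((κ * ‖t‖ ^ 2) * (Real.exp s / (1 - Real.exp s))) ^ 2 +
        (κ * ‖t‖ ^ 2) * (Real.exp s / (1 - Real.exp s) ^ 2)) - MI2 g t s)
    (E := fun s => 2 * t.re * (s - Real.log (1 - Real.exp s)))
    (q := fun s => 2 * t.re / (1 - Real.exp s))
    (p := fun s => 3 * ‖t‖ ^ 2 / (1 - Real.exp s) ^ 2)
    (fun y hy => (JJ_der M _ hy.2).sub (MI_der hg t hy.2))
    (fun y hy => (JJ_der2 M _ hy.2).sub (MI1_der hg t hy.2))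
    (fun y hy => EE_der t.re hy.2)
    (fun y hy => by positivity)
    (by
      intro y hy
      have h1 := super (M := M) (κ := κ) (τ := ‖t‖) (x := t.re) hMp.le hκ0
        ((le_abs_self _).trans (Complex.abs_re_le_norm t)) hy.2 (hge y hy)
      have h2 := MI2_le hg t hy.2
      linarith)
    (by
      have h1 := MI_bd hg t hs0n
      rw [hes0, ← hC0] at h1
      have h2 := hJM s0 hs0n
      have h3 : 2 * Real.pi * Real.exp (C0 * ‖t‖) < M := by
        rw [hM]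
        have := Real.exp_pos (C0 * ‖t‖)
        have h4 := Real.pi_pos
        have h5 : 0 < 2 * Real.pi * Real.exp (C0 * ‖t‖) * C0 := by positivity
        nlinarith
      linarith)
    (by
      have h1 := MI1_bd hg t hs0n
      rw [hes0, ← hC0] at h1
      have h2 := hJM s0 hs0n
      rw [hes0]
      have e1 : κ * ‖t‖ ^ 2 * (4 / κ / (1 - 4 / κ)) = 4 / 3 * C0 * ‖t‖ ^ 2 := by
        rw [hC0]
        field_simp
      rw [e1]
      have h3 : M * (4 / 3 * C0 * ‖t‖ ^ 2) ≤ JJ M (κ * ‖t‖ ^ 2) s0 * (4 / 3 * C0 * ‖t‖ ^ 2) :=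
        mul_le_mul_of_nonneg_right h2 (by positivity)
      have h4 : 2 * Real.pi * ((C0 * ‖t‖) ^ 2 * Real.exp (C0 * ‖t‖)) <
          M * (4 / 3 * C0 * ‖t‖ ^ 2) := by
        have e2 : M * (4 / 3 * C0 * ‖t‖ ^ 2) - 2 * Real.pi * ((C0 * ‖t‖) ^ 2 * Real.exp (C0 * ‖t‖)) =
            2 * Real.pi * Real.exp (C0 * ‖t‖) * ‖t‖ ^ 2 * C0 * (4 / 3 + C0 / 3) := by
          rw [hM]; ring
        have h5 : 0 < 2 * Real.pi * Real.exp (C0 * ‖t‖) * ‖t‖ ^ 2 * C0 * (4 / 3 + C0 / 3) := by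
          positivity
        linarith
      linarith)
    s ⟨hs0s, hs⟩
  linarith

end Pool.Agent.H21MC
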