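import Pool.Agent.H21MC.Gauss

set_option autoImplicit false
open Complex Filter Topology Set Metric MeasureTheory

namespace Pool.Agent.H21MC

theorem marshall_cl {a : ℝ} (ha0 : 0 < a) (ha : a < 1 / 16) :
    ∃ C : ℝ, ∃ R₀ : ℝ, 1 < R₀ ∧ ∀ R : ℝ, 1 < R → R < R₀ → ∀ g : ℂ → ℂ, Cl g →
      ∫ θ in (0:ℝ)..(2 * Real.pi), Real.exp (a * ‖g (Complex.exp (pz (-Real.log R) θ))‖ ^ 2 /
        Real.log (R ^ 2 / (R ^ 2 - 1))) ≤ C := by
  have h4a : 4 < 1 / (4 * a) := by
    rw [lt_div_iff₀ (by positivity)]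
    linarith
  set κ : ℝ := (4 + 1 / (4 * a)) / 2 with hκd
  have hκ : 4 < κ := by rw [hκd]; linarith
  have hκ0 : 0 < κ := by linarith
  set δ : ℝ := 1 / (4 * a) - κ with hδd
  have hδ : 0 < δ := by rw [hδd, hκd]; linarith
  have h4κ : 4 / κ < 1 := by rw [div_lt_one hκ0]; exact hκ
  set C0 : ℝ := 3 / (1 - 4 / κ) with hC0
  have hw0 : 0 < 1 - 4 / κ := by linarith
  have hC0p : 0 < C0 := by positivity
  have hl2 : 0 < Real.log 2 := Real.log_pos (by norm_num)
  set L1 : ℝ := 2 * κ * Real.log 2 / δ with hL1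
  have hL1p : 0 < L1 := by positivity
  refine ⟨1 / (a * δ) * (2 * Real.pi * (1 + C0)) * Real.exp (C0 ^ 2 / (2 * (κ * Real.log 2))),
    min (κ / 4) (1 + min 1 (Real.exp (-L1) / 3)), ?_, ?_⟩
  · apply lt_min
    · linarith
    · have : 0 < min 1 (Real.exp (-L1) / 3) := lt_min one_pos (by positivity)
      linarith
  intro R hR1 hR g hg
  have hRa : R < κ / 4 := lt_of_lt_of_le hR (min_le_left _ _)
  have hRb : R < 1 + min 1 (Real.exp (-L1) / 3) := lt_of_lt_of_le hR (min_le_right _ _)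
  have hRc : R < 2 := by
    have := min_le_left 1 (Real.exp (-L1) / 3)
    linarith
  have hRd : R - 1 < Real.exp (-L1) / 3 := by
    have := min_le_right 1 (Real.exp (-L1) / 3)
    linarith
  have hR0 : 0 < R := by linarith
  have hq : 0 < R ^ 2 - 1 := by nlinarith
  set L : ℝ := Real.log (R ^ 2 / (R ^ 2 - 1)) with hL
  have hLL : L1 ≤ L := by
    rw [hL, Real.le_log_iff_exp_le (by positivity), le_div_iff₀ hq]
    have h1 : R ^ 2 - 1 ≤ Real.exp (-L1) := by nlinarith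
    have h2 : Real.exp L1 * (R ^ 2 - 1) ≤ Real.exp L1 * Real.exp (-L1) :=
      mul_le_mul_of_nonneg_left h1 (Real.exp_pos _).le
    rw [← Real.exp_add, add_neg_cancel, Real.exp_zero] at h2
    nlinarith
  have hLp : 0 < L := by linarith
  set s : ℝ := -Real.log R with hs
  have hlogR : 0 < Real.log R := Real.log_pos hR1
  have hsn : s < 0 := by rw [hs]; linarith
  have hes : Real.exp s = R⁻¹ := by rw [hs, Real.exp_neg, Real.exp_log hR0]
  have hr : 4 ≤ κ * Real.exp s := by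
    rw [hes, ← div_eq_mul_inv, le_div_iff₀ hR0]
    linarith
  have hlog : -L - Real.log 2 ≤ Real.log (1 - Real.exp s) := by
    have h1 : (0 : ℝ) < 1 - R⁻¹ := by
      have := inv_lt_one_of_one_lt₀ hR1
      linarith
    have h2 : (0 : ℝ) < 1 + R⁻¹ := by positivity
    have h3 : R ^ 2 / (R ^ 2 - 1) = ((1 - R⁻¹) * (1 + R⁻¹))⁻¹ := by
      have h3a : (1 - R⁻¹) * (1 + R⁻¹) = (R ^ 2 - 1) / R ^ 2 := by
        field_simp
        ring
      rw [h3a, inv_div]
    have h4 : L = -(Real.log (1 - R⁻¹) + Real.log (1 + R⁻¹)) := by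
      rw [hL, h3, Real.log_inv, Real.log_mul h1.ne' h2.ne']
    have h5 : Real.log (1 + R⁻¹) ≤ Real.log 2 := by
      apply Real.log_le_log h2
      have := inv_lt_one_of_one_lt₀ hR1
      linarith
    rw [hes]
    linarith
  have hkey := avg hg hκ hsn hr (b := L / (4 * a)) (c := δ * L / 2) (by positivity) (by positivity) (by
    have h1 : κ * (-L - Real.log 2) ≤ κ * Real.log (1 - Real.exp s) :=
      mul_le_mul_of_nonneg_left hlog hκ0.le
    have h2 : L / (4 * a) = (δ + κ) * L := by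
      rw [hδd]
      field_simp
      ring
    have h3 : 2 * κ * Real.log 2 ≤ δ * L := by
      have h4 := mul_le_mul_of_nonneg_left hLL hδ.le
      have h5 : δ * L1 = 2 * κ * Real.log 2 := by
        rw [hL1]
        field_simp
      linarith
    rw [h2]
    nlinarith)
  have e1 : (fun θ : ℝ => Real.exp (‖g (Complex.exp (pz s θ))‖ ^ 2 / (4 * (L / (4 * a))))) =
      fun θ : ℝ => Real.exp (a * ‖g (Complex.exp (pz s θ))‖ ^ 2 / L) := by
    funext θ
    congr 1
    field_simp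
  rw [e1, ← hC0] at hkey
  refine hkey.trans ?_
  have e2 : 2 * (L / (4 * a)) / (δ * L / 2) = 1 / (a * δ) := by
    field_simp
    ring
  rw [e2]
  apply mul_le_mul_of_nonneg_left _ (by positivity)
  apply Real.exp_le_exp.mpr
  apply div_le_div_of_nonneg_left (by positivity) (by positivity)
  have h3 : 2 * κ * Real.log 2 ≤ δ * L := by
    have h4 := mul_le_mul_of_nonneg_left hLL hδ.le
    have h5 : δ * L1 = 2 * κ * Real.log 2 := by
      rw [hL1]
      field_simp
    linarith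
  linarith

theorem gg_val (h : ℂ → ℂ) {R : ℝ} (hR : 0 < R) (θ : ℝ) :
    gg h (Complex.exp (pz (-Real.log R) (2 * Real.pi - θ))) =
      h ((R : ℂ) * Complex.exp ((θ : ℂ) * I)) := by
  unfold gg
  rw [if_neg (Complex.exp_ne_zero _), ← Complex.exp_neg]
  congr 1
  have h1 : (R : ℂ) = Complex.exp ((Real.log R : ℝ) : ℂ) := by
    rw [← Complex.ofReal_exp, Real.exp_log hR]
  have h2 : -pz (-Real.log R) (2 * Real.pi - θ) =
      (((Real.log R : ℝ) : ℂ) + (θ : ℂ) * I) - 2 * Real.pi * I := by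
    unfold pz
    push_cast
    ring
  rw [h2, Complex.exp_periodic.sub_eq, Complex.exp_add, ← h1]

/-- Uniform exponential integrability for all `a < 1/16`. -/
theorem marshall (a : ℝ) (ha0 : 0 < a) (ha : a < 1 / 16) :
    ∃ C : ℝ, ∃ R₀ : ℝ, 1 < R₀ ∧
    ∀ R : ℝ, 1 < R → R < R₀ →
    ∀ ψ h : ℂ → ℂ,
      DifferentiableOn ℂ ψ {z : ℂ | 1 < ‖z‖} →
      Set.InjOn ψ {z : ℂ | 1 < ‖z‖} →
      DifferentiableOn ℂ h {z : ℂ | 1 < ‖z‖} →
      (∀ z : ℂ, 1 < ‖z‖ → Complex.exp (h z) = deriv ψ z) →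
      Filter.Tendsto h (Bornology.cobounded ℂ) (nhds 0) →
      (1 / (2 * Real.pi)) * ∫ θ in (0:ℝ)..(2 * Real.pi),
        Real.exp (a * ‖h ((R : ℂ) * Complex.exp ((θ : ℂ) * Complex.I))‖ ^ 2
          / Real.log (R ^ 2 / (R ^ 2 - 1))) ≤ C := by
  obtain ⟨C, R₀, hR₀, hmain⟩ := marshall_cl ha0 ha
  refine ⟨(1 / (2 * Real.pi)) * C, R₀, hR₀, ?_⟩
  intro R hR1 hR ψ h hψd hψi hhd hexp hh0
  have hg := gg_cl hψd hψi hhd hexp hh0
  have h1 := hmain R hR1 hR (gg h) hg
  apply mul_le_mul_of_nonneg_left _ (by positivity)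
  refine le_trans (le_of_eq ?_) h1
  have h2 := intervalIntegral.integral_comp_sub_left (a := 0) (b := 2 * Real.pi)
    (fun θ : ℝ => Real.exp (a * ‖gg h (Complex.exp (pz (-Real.log R) θ))‖ ^ 2 /
        Real.log (R ^ 2 / (R ^ 2 - 1)))) (2 * Real.pi)
  rw [sub_self, sub_zero] at h2
  rw [← h2]
  apply intervalIntegral.integral_congr
  intro θ _
  simp only
  rw [gg_val h (by linarith) θ]

end Pool.Agent.H21MC
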