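import Pool.Agent.H21MC.Exp

set_option autoImplicit false
open Complex Filter Topology Set Metric MeasureTheory

namespace Pool.Agent.H21MC

theorem inner_eq (w t : ℂ) : inner ℝ ((starRingEnd ℂ) w) t = (t * w).re := by
  rw [Complex.inner, Complex.conj_conj, mul_comm]

theorem gauss_int {b : ℝ} (hb : 0 < b) (w : ℂ) :
    Integrable (fun t : ℂ => Real.exp (-b * ‖t‖ ^ 2 + (t * w).re)) := by
  have h := (GaussianFourier.integrable_cexp_neg_mul_sq_norm_add (V := ℂ) (b := (b : ℂ))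
    (by simpa using hb) 1 ((starRingEnd ℂ) w)).re
  refine h.congr (Eventually.of_forall fun t => ?_)
  simp only [inner_eq, one_mul]
  have e : -(b : ℂ) * (‖t‖ : ℂ) ^ 2 + (((t * w).re : ℝ) : ℂ) =
      ((-b * ‖t‖ ^ 2 + (t * w).re : ℝ) : ℂ) := by push_cast; ring
  rw [e, ← Complex.ofReal_exp]
  exact Complex.ofReal_re _

theorem gauss_val {b : ℝ} (hb : 0 < b) (w : ℂ) :
    ∫ t : ℂ, Real.exp (-b * ‖t‖ ^ 2 + (t * w).re) = Real.pi / b * Real.exp (‖w‖ ^ 2 / (4 * b)) := by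
  have h := GaussianFourier.integral_cexp_neg_mul_sq_norm_add (V := ℂ) (b := (b : ℂ))
    (by simpa using hb) 1 ((starRingEnd ℂ) w)
  have hfr : (Module.finrank ℝ ℂ : ℂ) = 2 := by
    rw [Complex.finrank_real_complex]; norm_num
  rw [hfr, div_self (two_ne_zero), Complex.cpow_one, one_pow, one_mul, RCLike.norm_conj] at h
  have e1 : (fun t : ℂ => Complex.exp (-(b : ℂ) * (‖t‖ : ℂ) ^ 2 + 1 *
      ((inner ℝ ((starRingEnd ℂ) w) t : ℝ) : ℂ))) =
      fun t : ℂ => ((Real.exp (-b * ‖t‖ ^ 2 + (t * w).re) : ℝ) : ℂ) := by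
    funext t
    rw [inner_eq, one_mul]
    push_cast
    rfl
  rw [e1, integral_complex_ofReal] at h
  have e2 : (Real.pi : ℂ) / (b : ℂ) * Complex.exp ((‖w‖ : ℂ) ^ 2 / (4 * (b : ℂ))) =
      ((Real.pi / b * Real.exp (‖w‖ ^ 2 / (4 * b)) : ℝ) : ℂ) := by
    push_cast
    rfl
  rw [e2] at h
  exact_mod_cast h

theorem gauss_lint {b : ℝ} (hb : 0 < b) (w : ℂ) :
    ∫⁻ t : ℂ, ENNReal.ofReal (Real.exp (-b * ‖t‖ ^ 2 + (t * w).re)) =
      ENNReal.ofReal (Real.pi / b * Real.exp (‖w‖ ^ 2 / (4 * b))) := by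
  rw [← gauss_val hb w, ofReal_integral_eq_lintegral_ofReal (gauss_int hb w)
    (Eventually.of_forall fun t => (Real.exp_pos _).le)]

theorem gauss_lint0 {b : ℝ} (hb : 0 < b) :
    ∫⁻ t : ℂ, ENNReal.ofReal (Real.exp (-b * ‖t‖ ^ 2)) = ENNReal.ofReal (Real.pi / b) := by
  have h := gauss_lint hb 0
  simpa using h

/-- Gaussian averaging of the exponential moment bound -/
theorem avg {g : ℂ → ℂ} (hg : Cl g) {κ : ℝ} (hκ : 4 < κ) {s : ℝ} (hs : s < 0)
    (hr : 4 ≤ κ * Real.exp s) {b c : ℝ} (hb : 0 < b) (hc : 0 < c)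
    (hbc : c ≤ b + κ * Real.log (1 - Real.exp s)) :
    ∫ θ in (0:ℝ)..(2 * Real.pi), Real.exp (‖g (Complex.exp (pz s θ))‖ ^ 2 / (4 * b)) ≤
      2 * b / c * (2 * Real.pi * (1 + 3 / (1 - 4 / κ))) *
        Real.exp ((3 / (1 - 4 / κ)) ^ 2 / (2 * c)) := by
  have hκ0 : 0 < κ := by linarith
  have h4κ : 4 / κ < 1 := by rw [div_lt_one hκ0]; exact hκ
  set C0 : ℝ := 3 / (1 - 4 / κ) with hC0
  have hw0 : 0 < 1 - 4 / κ := by linarith
  have hC0p : 0 < C0 := by positivity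
  have hpi := Real.pi_pos
  set M0 : ℝ := 2 * Real.pi * (1 + C0) with hM0
  have hM0p : 0 < M0 := by positivity
  have hgc : Continuous (fun θ : ℝ => g (Complex.exp (pz s θ))) := by
    have h := comp_cont1 (kk_diff hg 1) hs
    have e : (fun θ : ℝ => kk g 1 (pz s θ)) = fun θ : ℝ => g (Complex.exp (pz s θ)) := by
      funext θ
      unfold kk
      rw [one_mul]
    rwa [e] at h
  have hcont : Continuous (fun θ : ℝ => Real.exp (‖g (Complex.exp (pz s θ))‖ ^ 2 / (4 * b))) :=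
    Real.continuous_exp.comp ((hgc.norm.pow 2).div_const _)
  rw [intervalIntegral.integral_of_le Real.two_pi_pos.le]
  rw [integral_eq_lintegral_of_nonneg_ae (Eventually.of_forall fun θ => (Real.exp_pos _).le)
    hcont.aestronglyMeasurable.restrict]
  apply ENNReal.toReal_le_of_le_ofReal (by positivity)
  -- rewrite the integrand
  have e1 : ∀ θ : ℝ, ENNReal.ofReal (Real.exp (‖g (Complex.exp (pz s θ))‖ ^ 2 / (4 * b))) =
      ENNReal.ofReal (b / Real.pi) * ∫⁻ t : ℂ, ENNReal.ofReal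
        (Real.exp (-b * ‖t‖ ^ 2 + (t * g (Complex.exp (pz s θ))).re)) := by
    intro θ
    rw [gauss_lint hb, ← ENNReal.ofReal_mul (by positivity)]
    congr 1
    field_simp
  simp_rw [e1]
  have hjoint : Continuous (fun p : ℝ × ℂ =>
      Real.exp (-b * ‖p.2‖ ^ 2 + (p.2 * g (Complex.exp (pz s p.1))).re)) := by
    have h1 : Continuous (fun p : ℝ × ℂ => g (Complex.exp (pz s p.1))) := hgc.comp continuous_fst
    exact Real.continuous_exp.comp (((continuous_const.mul (continuous_snd.norm.pow 2))).add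
      (Complex.continuous_re.comp (continuous_snd.mul h1)))
  rw [lintegral_const_mul']
  swap
  · exact ENNReal.ofReal_ne_top
  rw [lintegral_lintegral_swap]
  swap
  · exact (hjoint.measurable.ennreal_ofReal).aemeasurable
  have e2 : ∀ t : ℂ, ∫⁻ θ in Ioc (0:ℝ) (2 * Real.pi), ENNReal.ofReal
        (Real.exp (-b * ‖t‖ ^ 2 + (t * g (Complex.exp (pz s θ))).re)) ≤
      ENNReal.ofReal (M0 * Real.exp (C0 ^ 2 / (2 * c))) *
        ENNReal.ofReal (Real.exp (-(c / 2) * ‖t‖ ^ 2)) := by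
    intro t
    have hmi := mean_le hg hκ t hs hr
    rw [← hC0] at hmi
    have hkc := cE hg t hs
    have h1 : ∫⁻ θ in Ioc (0:ℝ) (2 * Real.pi), ENNReal.ofReal
        (Real.exp (-b * ‖t‖ ^ 2 + (t * g (Complex.exp (pz s θ))).re)) =
        ENNReal.ofReal (Real.exp (-b * ‖t‖ ^ 2) * MI g t s) := by
      have h2 : MI g t s = ∫ θ in Ioc (0:ℝ) (2 * Real.pi), Real.exp (kk g t (pz s θ)).re := by
        unfold MI
        rw [intervalIntegral.integral_of_le Real.two_pi_pos.le]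
      rw [ENNReal.ofReal_mul (Real.exp_pos _).le, h2, ofReal_integral_eq_lintegral_ofReal
        (hkc.integrableOn_Ioc) (Eventually.of_forall fun θ => (Real.exp_pos _).le),
        ← lintegral_const_mul' _ _ ENNReal.ofReal_ne_top]
      apply lintegral_congr
      intro θ
      rw [← ENNReal.ofReal_mul (Real.exp_pos _).le, ← Real.exp_add]
      rfl
    rw [h1, ← ENNReal.ofReal_mul (by positivity)]
    apply ENNReal.ofReal_le_ofReal
    have h3 : Real.exp (-b * ‖t‖ ^ 2) * MI g t s ≤ Real.exp (-b * ‖t‖ ^ 2) *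
        (M0 * Real.exp (C0 * ‖t‖) * Real.exp (-(κ * ‖t‖ ^ 2) * Real.log (1 - Real.exp s))) :=
      mul_le_mul_of_nonneg_left hmi (Real.exp_pos _).le
    refine h3.trans ?_
    have e3 : Real.exp (-b * ‖t‖ ^ 2) *
        (M0 * Real.exp (C0 * ‖t‖) * Real.exp (-(κ * ‖t‖ ^ 2) * Real.log (1 - Real.exp s))) =
        M0 * Real.exp (C0 * ‖t‖ - (b + κ * Real.log (1 - Real.exp s)) * ‖t‖ ^ 2) := by
      rw [show C0 * ‖t‖ - (b + κ * Real.log (1 - Real.exp s)) * ‖t‖ ^ 2 =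
        -b * ‖t‖ ^ 2 + (C0 * ‖t‖ + (-(κ * ‖t‖ ^ 2) * Real.log (1 - Real.exp s))) by ring,
        Real.exp_add, Real.exp_add]
      ring
    rw [e3, show M0 * Real.exp (C0 ^ 2 / (2 * c)) * Real.exp (-(c / 2) * ‖t‖ ^ 2) =
      M0 * (Real.exp (C0 ^ 2 / (2 * c)) * Real.exp (-(c / 2) * ‖t‖ ^ 2)) from mul_assoc _ _ _,
      ← Real.exp_add]
    apply mul_le_mul_of_nonneg_left _ hM0p.le
    apply Real.exp_le_exp.mpr
    have h4 : c * ‖t‖ ^ 2 ≤ (b + κ * Real.log (1 - Real.exp s)) * ‖t‖ ^ 2 :=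
      mul_le_mul_of_nonneg_right hbc (sq_nonneg _)
    have h5 : C0 * ‖t‖ ≤ c / 2 * ‖t‖ ^ 2 + C0 ^ 2 / (2 * c) := by
      have h6 : 0 ≤ (c * ‖t‖ - C0) ^ 2 / (2 * c) := by positivity
      have h7 : (c * ‖t‖ - C0) ^ 2 / (2 * c) = c / 2 * ‖t‖ ^ 2 + C0 ^ 2 / (2 * c) - C0 * ‖t‖ := by
        field_simp
        ring
      linarith
    linarith
  refine (mul_le_mul_right (lintegral_mono e2) _).trans (le_of_eq ?_)
  rw [lintegral_const_mul' _ _ ENNReal.ofReal_ne_top, gauss_lint0 (by positivity),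
    ← ENNReal.ofReal_mul (by positivity), ← ENNReal.ofReal_mul (by positivity)]
  congr 1
  field_simp

end Pool.Agent.H21MC
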