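import Pool.Agent.Helper240.ZFM.B1

set_option autoImplicit false
open Complex Filter Topology Set Metric

namespace Pool.Agent.H21MC

/-- the exterior disc -/
def Ex : Set ℂ := {z : ℂ | 1 < ‖z‖}

theorem isOpen_Ex : IsOpen Ex := isOpen_lt continuous_const continuous_norm

theorem one_sub_ne {w : ℂ} (hw : ‖w‖ < 1) : (1 : ℂ) - w ≠ 0 := by
  intro h
  have h1 : w = 1 := by linear_combination -h
  rw [h1, norm_one] at hw
  exact lt_irrefl _ hw

theorem cay_re {w : ℂ} (hw : ‖w‖ < 1) : 0 < ((1 + w) / (1 - w)).re := by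
  have hne := one_sub_ne hw
  have h1 : 0 < normSq (1 - w) := normSq_pos.mpr hne
  rw [Complex.div_re, ← add_div]
  apply div_pos _ h1
  have h2 : w.re * w.re + w.im * w.im < 1 := by
    have := hw
    rw [← sq_lt_one_iff₀ (norm_nonneg _), Complex.sq_norm, normSq_apply] at this
    exact this
  simp only [add_re, one_re, sub_re, add_im, one_im, sub_im]
  nlinarith

/-- the half-plane transform -/
noncomputable def tau (e : ℂ) (c : ℝ) (w : ℂ) : ℂ := e * (1 + c * ((1 + w) / (1 - w)))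

theorem tau_mem {e : ℂ} (he : ‖e‖ = 1) {c : ℝ} (hc : 0 < c) {w : ℂ} (hw : ‖w‖ < 1) :
    tau e c w ∈ Ex := by
  have h1 := cay_re hw
  show 1 < ‖tau e c w‖
  unfold tau
  rw [norm_mul, he, one_mul]
  have h2 : (1 + (c : ℂ) * ((1 + w) / (1 - w))).re = 1 + c * ((1 + w) / (1 - w)).re := by
    rw [add_re, one_re, re_ofReal_mul]
  have h3 := Complex.re_le_norm (1 + (c : ℂ) * ((1 + w) / (1 - w)))
  rw [h2] at h3
  have : 0 < c * ((1 + w) / (1 - w)).re := mul_pos hc h1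
  linarith

theorem tau_deriv {e : ℂ} {c : ℝ} {w : ℂ} (hw : ‖w‖ < 1) :
    HasDerivAt (tau e c) (e * (c * (2 / (1 - w) ^ 2))) w := by
  have hne := one_sub_ne hw
  have h1 : HasDerivAt (fun w : ℂ => (1 + w) / (1 - w)) (2 / (1 - w) ^ 2) w := by
    have h := ((hasDerivAt_id w).const_add 1).div ((hasDerivAt_id w).const_sub 1) hne
    refine h.congr_deriv ?_
    simp only [id]
    congr 1
    ring
  exact ((h1.const_mul (c : ℂ)).const_add 1).const_mul e

theorem tau_inj {e : ℂ} (he : ‖e‖ = 1) {c : ℝ} (hc : 0 < c) : InjOn (tau e c) (ball 0 1) := by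
  intro w hw w' hw' h
  rw [mem_ball_zero_iff] at hw hw'
  have he0 : e ≠ 0 := by
    intro h0; rw [h0, norm_zero] at he; exact zero_ne_one he
  have hc0 : (c : ℂ) ≠ 0 := by exact_mod_cast hc.ne'
  unfold tau at h
  have h1 := add_left_cancel (mul_left_cancel₀ he0 h)
  have h2 := mul_left_cancel₀ hc0 h1
  rw [div_eq_div_iff (one_sub_ne hw) (one_sub_ne hw')] at h2
  have : (2 : ℂ) * (w - w') = 0 := by linear_combination h2
  rcases mul_eq_zero.mp this with h3 | h3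
  · norm_num at h3
  · exact sub_eq_zero.mp h3

/-- the sharp local inequality for `h = log ψ'` -/
theorem local_ineq {ψ h : ℂ → ℂ} (hψd : DifferentiableOn ℂ ψ Ex) (hψi : InjOn ψ Ex)
    (hhd : DifferentiableOn ℂ h Ex) (hexp : ∀ z : ℂ, 1 < ‖z‖ → Complex.exp (h z) = deriv ψ z)
    {z : ℂ} (hz : 1 < ‖z‖) :
    ‖((‖z‖ - 1 : ℝ) : ℂ) * (z / ‖z‖) * deriv h z + 1‖ ≤ 2 := by
  set c : ℝ := ‖z‖ - 1 with hc
  have hc0 : 0 < c := by rw [hc]; linarith
  set e : ℂ := z / ‖z‖ with he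
  have hzn : (‖z‖ : ℂ) ≠ 0 := by
    have : ‖z‖ ≠ 0 := by linarith
    exact_mod_cast this
  have he1 : ‖e‖ = 1 := by
    rw [he, norm_div, Complex.norm_real, norm_norm, div_self]
    linarith
  have hτ0 : tau e c 0 = z := by
    unfold tau
    rw [hc, he]
    push_cast
    field_simp
    ring
  set f : ℂ → ℂ := fun w => ψ (tau e c w) with hf
  have hmem : ∀ w ∈ ball (0 : ℂ) 1, tau e c w ∈ Ex := by
    intro w hw
    rw [mem_ball_zero_iff] at hw
    exact tau_mem he1 hc0 hw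
  have hfd : DifferentiableOn ℂ f (ball 0 1) := by
    refine hψd.comp ?_ hmem
    intro w hw
    rw [mem_ball_zero_iff] at hw
    exact (tau_deriv hw).differentiableAt.differentiableWithinAt
  have hfi : InjOn f (ball 0 1) := by
    intro w hw w' hw' h'
    exact tau_inj he1 hc0 hw hw' (hψi (hmem w hw) (hmem w' hw') h')
  have hb := ZFM.J_b1.bieb hfd hfi
  have hder : ∀ w ∈ ball (0 : ℂ) 1, deriv f w =
      Complex.exp (h (tau e c w)) * (e * (c * (2 / (1 - w) ^ 2))) := by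
    intro w hw
    have h1 : HasDerivAt ψ (deriv ψ (tau e c w)) (tau e c w) :=
      ((hψd _ (hmem w hw)).differentiableAt (isOpen_Ex.mem_nhds (hmem w hw))).hasDerivAt
    have h2 := h1.comp w (tau_deriv (by rwa [mem_ball_zero_iff] at hw))
    rw [hexp _ (hmem w hw)]
    exact h2.deriv
  have h0 : (0 : ℂ) ∈ ball (0 : ℂ) 1 := mem_ball_self one_pos
  have hd1 : deriv f 0 = Complex.exp (h z) * (2 * e * c) := by
    rw [hder 0 h0, hτ0]
    ring
  have hd2 : deriv (deriv f) 0 = Complex.exp (h z) * (4 * e * c * (c * e * deriv h z + 1)) := by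
    have hev : deriv f =ᶠ[𝓝 0] fun w => Complex.exp (h (tau e c w)) *
        (e * (c * (2 / (1 - w) ^ 2))) := by
      filter_upwards [isOpen_ball.mem_nhds h0] with w hw using hder w hw
    rw [hev.deriv_eq]
    have h1 : HasDerivAt h (deriv h z) (tau e c 0) := by
      rw [hτ0]
      exact ((hhd z hz).differentiableAt (isOpen_Ex.mem_nhds hz)).hasDerivAt
    have h2 := (h1.comp 0 (tau_deriv (e := e) (c := c) (by simp : ‖(0 : ℂ)‖ < 1))).cexp
    have h3 : HasDerivAt (fun w : ℂ => e * (c * (2 / (1 - w) ^ 2))) (e * (c * 4)) 0 := by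
      have h4 : HasDerivAt (fun w : ℂ => 2 / (1 - w) ^ 2) 4 0 := by
        have h5 := (((hasDerivAt_id (0 : ℂ)).const_sub 1).pow 2).inv (by simp)
        have h6 := h5.const_mul 2
        have h7 : (fun w : ℂ => 2 / (1 - w) ^ 2) = fun y => 2 * (fun w : ℂ => ((1 - w) ^ 2))⁻¹ y := by
          funext w
          simp [div_eq_mul_inv]
        rw [h7]
        refine h6.congr_deriv ?_
        simp
        norm_num
      exact (h4.const_mul (c : ℂ)).const_mul e
    have h8 := h2.mul h3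
    simp only [Function.comp] at h8
    have h9 : HasDerivAt (fun w => Complex.exp (h (tau e c w)) * (e * (c * (2 / (1 - w) ^ 2))))
        (Complex.exp (h z) * (4 * e * c * (c * e * deriv h z + 1))) 0 := by
      refine h8.congr_deriv ?_
      rw [hτ0]
      ring
    exact h9.deriv
  rw [hd1, hd2] at hb
  have hE : 0 < ‖Complex.exp (h z)‖ := norm_pos_iff.mpr (Complex.exp_ne_zero _)
  simp only [norm_mul, he1, Complex.norm_real, Real.norm_of_nonneg hc0.le] at hb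
  have n4 : ‖(4 : ℂ)‖ = 4 := by norm_num
  have n2 : ‖(2 : ℂ)‖ = 2 := by norm_num
  rw [n4, n2] at hb
  have h10 : (‖Complex.exp (h z)‖ * c) * ‖(c : ℂ) * e * deriv h z + 1‖ ≤
      (‖Complex.exp (h z)‖ * c) * 2 := by nlinarith
  exact le_of_mul_le_mul_left h10 (mul_pos hE hc0)

/-- the transported function in the disc -/
noncomputable def gg (h : ℂ → ℂ) (u : ℂ) : ℂ := if u = 0 then 0 else h u⁻¹

theorem inv_mem {u : ℂ} (hu : ‖u‖ < 1) (h0 : u ≠ 0) : u⁻¹ ∈ Ex := by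
  show 1 < ‖u⁻¹‖
  rw [norm_inv]
  exact (one_lt_inv₀ (norm_pos_iff.mpr h0)).mpr hu

theorem gg_diff {h : ℂ → ℂ} (hhd : DifferentiableOn ℂ h Ex)
    (hh0 : Tendsto h (Bornology.cobounded ℂ) (𝓝 0)) : DifferentiableOn ℂ (gg h) (ball 0 1) := by
  have hn : ball (0 : ℂ) 1 ∈ 𝓝 (0 : ℂ) := isOpen_ball.mem_nhds (mem_ball_self one_pos)
  rw [← Complex.differentiableOn_compl_singleton_and_continuousAt_iff hn]
  constructor
  · intro u hu
    have hu0 : u ≠ 0 := hu.2
    have hu1 : ‖u‖ < 1 := by simpa using hu.1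
    have h1 : DifferentiableAt ℂ h u⁻¹ :=
      (hhd _ (inv_mem hu1 hu0)).differentiableAt (isOpen_Ex.mem_nhds (inv_mem hu1 hu0))
    have h2 : DifferentiableAt ℂ (fun u : ℂ => h u⁻¹) u :=
      h1.comp u (differentiableAt_inv hu0)
    refine (h2.congr_of_eventuallyEq ?_).differentiableWithinAt
    filter_upwards [isOpen_ne.mem_nhds hu0] with v hv
    unfold gg
    rw [if_neg hv]
  · rw [continuousAt_iff_punctured_nhds]
    have h1 : Tendsto (fun u : ℂ => h u⁻¹) (𝓝[≠] 0) (𝓝 0) :=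
      hh0.comp tendsto_inv₀_nhdsNE_zero
    have h2 : gg h 0 = 0 := by unfold gg; rw [if_pos rfl]
    rw [h2]
    refine h1.congr' ?_
    filter_upwards [self_mem_nhdsWithin] with v hv
    unfold gg
    have hv' : v ≠ 0 := hv
    rw [if_neg hv']

/-- the class of functions `g` in the disc -/
structure Cl (g : ℂ → ℂ) : Prop where
  diff : DifferentiableOn ℂ g (ball 0 1)
  zero : g 0 = 0
  ineq : ∀ u ∈ ball (0 : ℂ) 1, ‖1 - ((1 - ‖u‖ : ℝ) : ℂ) * (u * deriv g u)‖ ≤ 2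

theorem gg_cl {ψ h : ℂ → ℂ} (hψd : DifferentiableOn ℂ ψ Ex) (hψi : InjOn ψ Ex)
    (hhd : DifferentiableOn ℂ h Ex) (hexp : ∀ z : ℂ, 1 < ‖z‖ → Complex.exp (h z) = deriv ψ z)
    (hh0 : Tendsto h (Bornology.cobounded ℂ) (𝓝 0)) : Cl (gg h) := by
  refine ⟨gg_diff hhd hh0, by unfold gg; rw [if_pos rfl], ?_⟩
  intro u hu
  rw [mem_ball_zero_iff] at hu
  by_cases hu0 : u = 0
  · rw [hu0]
    simp
  have hz := inv_mem hu hu0
  have h1 := local_ineq hψd hψi hhd hexp (show 1 < ‖u⁻¹‖ from hz)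
  have hder : deriv (gg h) u = deriv h u⁻¹ * (-(u ^ 2)⁻¹) := by
    have h2 : HasDerivAt h (deriv h u⁻¹) u⁻¹ :=
      ((hhd _ hz).differentiableAt (isOpen_Ex.mem_nhds hz)).hasDerivAt
    have h3 : HasDerivAt (fun u : ℂ => h u⁻¹) (deriv h u⁻¹ * (-(u ^ 2)⁻¹)) u :=
      h2.comp u (hasDerivAt_inv hu0)
    have h4 : gg h =ᶠ[𝓝 u] fun u : ℂ => h u⁻¹ := by
      filter_upwards [isOpen_ne.mem_nhds hu0] with v hv
      unfold gg
      rw [if_neg hv]
    rw [h4.deriv_eq]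
    exact h3.deriv
  rw [hder]
  have hun : ‖u‖ ≠ 0 := norm_ne_zero_iff.mpr hu0
  have hunc : (‖u‖ : ℂ) ≠ 0 := by exact_mod_cast hun
  have e1 : ((‖u⁻¹‖ - 1 : ℝ) : ℂ) * (u⁻¹ / ‖u⁻¹‖) * deriv h u⁻¹ + 1 =
      1 - ((1 - ‖u‖ : ℝ) : ℂ) * (u * (deriv h u⁻¹ * (-(u ^ 2)⁻¹))) := by
    rw [norm_inv]
    push_cast
    field_simp
    ring
  rw [← e1]
  exact h1

end Pool.Agent.H21MC
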