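import Pool.Agent.H21MC.Calc
import Pool.Agent.H21MC.Cmp

set_option autoImplicit false
open Complex Filter Topology Set Metric MeasureTheory

namespace Pool.Agent.H21MC

noncomputable def kk (g : ℂ → ℂ) (t : ℂ) (Z : ℂ) : ℂ := t * g (Complex.exp Z)

theorem exp_norm (s θ : ℝ) : ‖Complex.exp (pz s θ)‖ = Real.exp s := by
  rw [Complex.norm_exp, pz_re]

theorem exp_mem {Z : ℂ} (hZ : Z.re < 0) : Complex.exp Z ∈ ball (0 : ℂ) 1 := by
  rw [mem_ball_zero_iff, Complex.norm_exp]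
  have h := Real.exp_lt_exp.mpr hZ
  rwa [Real.exp_zero] at h

theorem g_at {g : ℂ → ℂ} (hg : Cl g) {u : ℂ} (hu : u ∈ ball (0 : ℂ) 1) :
    HasDerivAt g (deriv g u) u :=
  ((hg.diff u hu).differentiableAt (isOpen_ball.mem_nhds hu)).hasDerivAt

theorem kk_der {g : ℂ → ℂ} (hg : Cl g) (t : ℂ) {Z : ℂ} (hZ : Z.re < 0) :
    HasDerivAt (kk g t) (t * (Complex.exp Z * deriv g (Complex.exp Z))) Z := by
  have h1 := (g_at hg (exp_mem hZ)).comp Z (Complex.hasDerivAt_exp Z)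
  have h2 := h1.const_mul t
  rw [mul_comm (deriv g (Complex.exp Z))] at h2
  exact h2

theorem kk_diff {g : ℂ → ℂ} (hg : Cl g) (t : ℂ) : DifferentiableOn ℂ (kk g t) Lh :=
  fun _ hZ => (kk_der hg t hZ).differentiableAt.differentiableWithinAt

theorem kk_deriv {g : ℂ → ℂ} (hg : Cl g) (t : ℂ) {s θ : ℝ} (hs : s < 0) :
    deriv (kk g t) (pz s θ) =
      t * (Complex.exp (pz s θ) * deriv g (Complex.exp (pz s θ))) :=
  (kk_der hg t (by rw [pz_re]; exact hs)).deriv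

theorem exp_per (s θ : ℝ) : Complex.exp (pz s (θ + 2 * Real.pi)) = Complex.exp (pz s θ) := by
  have : pz s (θ + 2 * Real.pi) = pz s θ + 2 * Real.pi * I := by
    unfold pz; push_cast; ring
  rw [this, Complex.exp_periodic]

theorem kk_per (g : ℂ → ℂ) (t : ℂ) (s θ : ℝ) :
    kk g t (pz s (θ + 2 * Real.pi)) = kk g t (pz s θ) := by
  unfold kk
  rw [exp_per]

theorem kk_per' {g : ℂ → ℂ} (hg : Cl g) (t : ℂ) {s : ℝ} (hs : s < 0) (θ : ℝ) :
    deriv (kk g t) (pz s (θ + 2 * Real.pi)) = deriv (kk g t) (pz s θ) := by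
  rw [kk_deriv hg t hs, kk_deriv hg t hs, exp_per]

theorem ineq' {g : ℂ → ℂ} (hg : Cl g) {s θ : ℝ} (hs : s < 0) :
    ‖1 - ((1 - Real.exp s : ℝ) : ℂ) *
      (Complex.exp (pz s θ) * deriv g (Complex.exp (pz s θ)))‖ ≤ 2 := by
  have h := hg.ineq (Complex.exp (pz s θ)) (exp_mem (by rw [pz_re]; exact hs))
  rwa [exp_norm] at h

theorem pw {g : ℂ → ℂ} (hg : Cl g) (t : ℂ) {s θ : ℝ} (hs : s < 0) :
    ‖deriv (kk g t) (pz s θ)‖ ^ 2 ≤ 3 * ‖t‖ ^ 2 / (1 - Real.exp s) ^ 2 +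
      2 / (1 - Real.exp s) * (t.re * (deriv (kk g t) (pz s θ)).re +
        t.im * (deriv (kk g t) (pz s θ)).im) := by
  have hw := one_sub_exp_pos hs
  rw [kk_deriv hg t hs]
  have h := ineq' hg (θ := θ) hs
  generalize Complex.exp (pz s θ) * deriv g (Complex.exp (pz s θ)) = X at h ⊢
  set w : ℝ := 1 - Real.exp s with hwd
  have h2 : ‖1 - (w : ℂ) * X‖ ^ 2 ≤ 4 := by
    have := norm_nonneg (1 - (w : ℂ) * X)
    nlinarith
  rw [Complex.sq_norm, normSq_apply] at h2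
  simp only [sub_re, one_re, re_ofReal_mul, sub_im, one_im, im_ofReal_mul] at h2
  have h3 : w ^ 2 * (X.re ^ 2 + X.im ^ 2) ≤ 3 + 2 * w * X.re := by nlinarith
  have h4 : ‖t * X‖ ^ 2 = ‖t‖ ^ 2 * (X.re ^ 2 + X.im ^ 2) := by
    rw [norm_mul, mul_pow, Complex.sq_norm X, normSq_apply]
    ring
  have h5 : t.re * (t * X).re + t.im * (t * X).im = ‖t‖ ^ 2 * X.re := by
    rw [Complex.sq_norm t, normSq_apply, mul_re, mul_im]
    ring
  rw [h4, h5]
  have h6 : 3 * ‖t‖ ^ 2 / w ^ 2 + 2 / w * (‖t‖ ^ 2 * X.re) =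
      ‖t‖ ^ 2 * ((3 + 2 * w * X.re) / w ^ 2) := by
    field_simp
  rw [h6]
  apply mul_le_mul_of_nonneg_left _ (sq_nonneg _)
  rw [le_div_iff₀ (by positivity)]
  linarith

/-- the mean of `exp (Re (t g))` on the circle of radius `exp s` -/
noncomputable def MI (g : ℂ → ℂ) (t : ℂ) (s : ℝ) : ℝ :=
  ∫ θ in (0:ℝ)..(2 * Real.pi), Real.exp (kk g t (pz s θ)).re

noncomputable def MI1 (g : ℂ → ℂ) (t : ℂ) (s : ℝ) : ℝ :=
  ∫ θ in (0:ℝ)..(2 * Real.pi), Real.exp (kk g t (pz s θ)).re * (deriv (kk g t) (pz s θ)).re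

noncomputable def MI2 (g : ℂ → ℂ) (t : ℂ) (s : ℝ) : ℝ :=
  ∫ θ in (0:ℝ)..(2 * Real.pi), Real.exp (kk g t (pz s θ)).re * ‖deriv (kk g t) (pz s θ)‖ ^ 2

section

variable {g : ℂ → ℂ} (hg : Cl g) (t : ℂ)
include hg

theorem MI_der {s : ℝ} (hs : s < 0) : HasDerivAt (MI g t) (MI1 g t s) s :=
  I1 (kk_diff hg t) hs

theorem MI1_der {s : ℝ} (hs : s < 0) : HasDerivAt (MI1 g t) (MI2 g t s) s :=
  I2 (kk_diff hg t) hs (fun θ => kk_per g t s θ) (fun θ => kk_per' hg t hs θ)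

theorem cE {s : ℝ} (hs : s < 0) : Continuous (fun θ => Real.exp (kk g t (pz s θ)).re) :=
  Real.continuous_exp.comp (Complex.continuous_re.comp (comp_cont1 (kk_diff hg t) hs))

theorem cR {s : ℝ} (hs : s < 0) : Continuous (fun θ => (deriv (kk g t) (pz s θ)).re) :=
  Complex.continuous_re.comp (comp_cont1 (k1 (kk_diff hg t)) hs)

theorem cI {s : ℝ} (hs : s < 0) : Continuous (fun θ => (deriv (kk g t) (pz s θ)).im) :=
  Complex.continuous_im.comp (comp_cont1 (k1 (kk_diff hg t)) hs)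

/-- the differential inequality -/
theorem MI2_le {s : ℝ} (hs : s < 0) :
    MI2 g t s ≤ 3 * ‖t‖ ^ 2 / (1 - Real.exp s) ^ 2 * MI g t s +
      2 * t.re / (1 - Real.exp s) * MI1 g t s := by
  set w : ℝ := 1 - Real.exp s with hwd
  have h0 := tan0 (kk_diff hg t) hs (fun θ => kk_per g t s θ)
  have c1 := cE hg t hs
  have c2 := cR hg t hs
  have c3 := cI hg t hs
  have hc : Continuous (fun θ => Real.exp (kk g t (pz s θ)).re * ‖deriv (kk g t) (pz s θ)‖ ^ 2) :=
    c1.mul ((comp_cont1 (k1 (kk_diff hg t)) hs).norm.pow 2)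
  have e1 : 3 * ‖t‖ ^ 2 / w ^ 2 * MI g t s + 2 * t.re / w * MI1 g t s =
      ∫ θ in (0:ℝ)..(2 * Real.pi), (3 * ‖t‖ ^ 2 / w ^ 2 * Real.exp (kk g t (pz s θ)).re +
        2 * t.re / w * (Real.exp (kk g t (pz s θ)).re * (deriv (kk g t) (pz s θ)).re) +
        2 * t.im / w * (Real.exp (kk g t (pz s θ)).re * (deriv (kk g t) (pz s θ)).im)) := by
    rw [intervalIntegral.integral_add, intervalIntegral.integral_add,
      intervalIntegral.integral_const_mul, intervalIntegral.integral_const_mul,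
      intervalIntegral.integral_const_mul, h0, mul_zero, add_zero]
    · rfl
    · exact (c1.const_mul _).intervalIntegrable _ _
    · exact ((c1.mul c2).const_mul _).intervalIntegrable _ _
    · exact ((c1.const_mul _).add ((c1.mul c2).const_mul _)).intervalIntegrable _ _
    · exact ((c1.mul c3).const_mul _).intervalIntegrable _ _
  rw [e1]
  apply intervalIntegral.integral_mono_on Real.two_pi_pos.le (hc.intervalIntegrable _ _)
  · exact (((c1.const_mul _).add ((c1.mul c2).const_mul _)).add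
      ((c1.mul c3).const_mul _)).intervalIntegrable _ _
  · intro θ _
    have h := pw hg t (θ := θ) hs
    have h2 := mul_le_mul_of_nonneg_left h (Real.exp_pos (kk g t (pz s θ)).re).le
    refine h2.trans (le_of_eq ?_)
    ring

end

/-- bounds on a fixed circle -/
theorem bd1 {g : ℂ → ℂ} (hg : Cl g) {u : ℂ} (hu : ‖u‖ < 1) :
    ‖u * deriv g u‖ ≤ 3 / (1 - ‖u‖) := by
  have h := hg.ineq u (mem_ball_zero_iff.mpr hu)
  have hw : 0 < 1 - ‖u‖ := by linarith
  rw [le_div_iff₀ hw]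
  have h1 : ‖((1 - ‖u‖ : ℝ) : ℂ) * (u * deriv g u)‖ ≤ 3 := by
    have e : ((1 - ‖u‖ : ℝ) : ℂ) * (u * deriv g u) =
        1 - (1 - ((1 - ‖u‖ : ℝ) : ℂ) * (u * deriv g u)) := by ring
    rw [e]
    refine (norm_sub_le _ _).trans ?_
    rw [norm_one]
    linarith
  rw [norm_mul, Complex.norm_real, Real.norm_of_nonneg hw.le] at h1
  linarith

theorem bd2 {g : ℂ → ℂ} (hg : Cl g) {r : ℝ} (hr0 : 0 < r) (hr1 : r < 1) {u : ℂ} (hu : ‖u‖ ≤ r) :
    ‖g u‖ ≤ 3 / (1 - r) := by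
  have hw : 0 < 1 - r := by linarith
  have hsub : closedBall (0 : ℂ) r ⊆ ball 0 1 := closedBall_subset_ball hr1
  have hd' : DifferentiableOn ℂ (deriv g) (ball 0 1) := hg.diff.deriv isOpen_ball
  have hcl : DiffContOnCl ℂ (deriv g) (ball 0 r) := by
    apply DifferentiableOn.diffContOnCl
    rw [closure_ball _ hr0.ne']
    exact hd'.mono hsub
  have hb : ∀ z ∈ closedBall (0 : ℂ) r, ‖deriv g z‖ ≤ 3 / (1 - r) / r := by
    intro z hz
    have hfr : ∀ z ∈ frontier (ball (0 : ℂ) r), ‖deriv g z‖ ≤ 3 / (1 - r) / r := by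
      intro z hz
      rw [frontier_ball _ hr0.ne', mem_sphere_zero_iff_norm] at hz
      have h1 := bd1 hg (u := z) (by rw [hz]; exact hr1)
      rw [norm_mul, hz] at h1
      rw [le_div_iff₀ hr0]
      linarith
    refine Complex.norm_le_of_forall_mem_frontier_norm_le isBounded_ball hcl hfr ?_
    rw [closure_ball _ hr0.ne']
    exact hz
  have h3 := (convex_closedBall (0 : ℂ) r).norm_image_sub_le_of_norm_deriv_le (𝕜 := ℂ) (f := g)
    (fun z hz => (g_at hg (hsub hz)).differentiableAt) hb (mem_closedBall_self hr0.le)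
    (show u ∈ closedBall (0 : ℂ) r from mem_closedBall_zero_iff.mpr hu)
  rw [hg.zero, sub_zero, sub_zero] at h3
  refine h3.trans ?_
  rw [div_mul_eq_mul_div, div_le_iff₀ hr0]
  exact mul_le_mul_of_nonneg_left hu (by positivity)

theorem abs_exp_sub_one_le (x : ℝ) : |Real.exp x - 1| ≤ |x| * Real.exp |x| := by
  rcases le_total 0 x with h | h
  · have h1 := Real.add_one_le_exp x
    have h2 := Real.add_one_le_exp (-x)
    have h3 : Real.exp x * Real.exp (-x) = 1 := by rw [← Real.exp_add]; simp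
    rw [abs_of_nonneg h, abs_of_nonneg (by linarith)]
    have h4 := Real.exp_pos x
    nlinarith
  · have h1 := Real.add_one_le_exp x
    have h2 : Real.exp x ≤ 1 := by
      rw [← Real.exp_zero]; exact Real.exp_le_exp.mpr h
    have h3 : (1 : ℝ) ≤ Real.exp |x| := by
      rw [← Real.exp_zero]; exact Real.exp_le_exp.mpr (abs_nonneg x)
    rw [abs_of_nonpos h, abs_of_nonpos (by linarith)] at *
    nlinarith

end Pool.Agent.H21MC
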